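import Pool.Agent.Lib.helper10.CisRed

namespace Pool.Agent.Results.MP_117856_lc.CoNPHard

open Pool.Agent.Cx Pool.Agent.Cis

/-- `M` is the adjacency matrix of an equistable graph -/
def EquiRec (M : List (List Bool)) : Prop := IsGraph M ∧ Equistable (graphOf M)

theorem result : CoNPHard (Lang EquiRec) ∧ (InNP (Lang EquiRec) → ∀ L, InNP L ↔ InCoNP L) :=
  have h := hard_between (Q := Equistable) (fun _ _ h => h.equi) fun _ _ h => h.tri
  ⟨h.coNPHard, fun g => np_eq_conp (h.np_sub_conp' g)⟩

end Pool.Agent.Results.MP_117856_lc.CoNPHard
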